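import Pool.Agent.ISO.Defs
import Pool.Agent.ISO.StmtsR
import Pool.Agent.Helper32_OMP.StmtB

/-!
# Squad ISO: Theorem U from the outputs of the blocks
-/

set_option autoImplicit false
set_option linter.unusedVariables false

namespace Pool.Agent.ISO.H91

open MvPolynomial Pool.Agent.Helper6_Mono Pool.Agent.Helper32_OMP Pool.Agent.Helper8_CR

theorem map_self {σ : Type} (g : MvPolynomial σ ℂ) : MvPolynomial.map (algebraMap ℂ ℂ) g = g := by
  have h : (algebraMap ℂ ℂ) = RingHom.id ℂ := rfl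
  rw [h, MvPolynomial.map_id]

/-- extension of the constants -/
theorem sncOut_map {k σ ι : Type} [Field k] [Algebra k ℂ] {f : ι → MvPolynomial σ k}
    {T : Finset (σ → k)} {T' : Finset (σ → ℂ)} (hT : ∀ p ∈ T, (fun l => algebraMap k ℂ (p l)) ∈ T')
    (hT' : ∀ z ∈ T', ∃ p ∈ T, z = fun l => algebraMap k ℂ (p l)) (h : SncOut f T) :
    SncOut (fun i => MvPolynomial.map (algebraMap k ℂ) (f i)) T' := by
  intro z hz
  have h1 := h z fun p hp hzp => hz _ (hT p hp) (by rw [hzp]; rfl)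
  simp only [map_self]
  exact h1

theorem eval_map_pt {k σ : Type} [Field k] [Algebra k ℂ] (p : σ → k) (g : MvPolynomial σ k) :
    eval (fun l => algebraMap k ℂ (p l)) (MvPolynomial.map (algebraMap k ℂ) g) =
      algebraMap k ℂ (eval p g) := by
  rw [MvPolynomial.eval_map]
  exact (MvPolynomial.eval₂_comp (algebraMap k ℂ) p g).symm

/-- **Theorem U** -/
theorem final (hM : ModStmt) (hR : RooStmt) (hZ : ZedStmt) (hAp : R.ApmStmt) (hMr : MrootStmt)
    {k : Type} [Field k] [Algebra k ℂ] {σ ι : Type} [Fintype σ] [Fintype ι]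
    (hn : 2 ≤ Fintype.card σ) (f : ι → MvPolynomial σ k) (hf : ∀ i, ∀ c : k, f i ≠ C c)
    (a : ι → ℕ) (ha : ∀ i, 0 < a i) (c : k) (hc : c ≠ 0) (T : Finset (σ → k))
    (hA : SncOut f T) (hN : ∀ p ∈ T, NdAt f p) : Mon (C c * ∏ i, f i ^ a i) := by
  classical
  have hinj : Function.Injective (algebraMap k ℂ) := (algebraMap k ℂ).injective
  -- the models
  have h1 : ∀ p : σ → k, ∃ (g : ι → MvPolynomial σ k) (S : Finset (ℤ × ℕ)), p ∈ T →
      (∃ i, eval p (f i) = 0) → SncOut g {0} ∧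
      (∀ i, eval p (f i) ≠ 0 → g i = C (eval p (f i))) ∧
      Apx (C c * ∏ i, f i ^ a i) p (C c * ∏ i, g i ^ a i) ∧
      (∀ q ∈ S, 0 < q.2 ∧ (bfun (MvPolynomial.map (algebraMap k ℂ)
        (C c * ∏ i, g i ^ a i))).eval ((q.1 : ℂ) / (q.2 : ℂ)) = 0) ∧
      Zf (C c * ∏ i, g i ^ a i) ∈ zetaRing (C c * ∏ i, g i ^ a i) S := by
    intro p
    by_cases hp : p ∈ T ∧ ∃ i, eval p (f i) = 0
    · obtain ⟨g, hg1, hg2, hg3, S, hS1, hS2⟩ := hM k σ ι f a ha c hc T p hA (hN p hp.1) hp.2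
      exact ⟨g, S, fun _ _ => ⟨hg1, hg2, hg3, hS1, hS2⟩⟩
    · exact ⟨f, ∅, fun h h' => absurd ⟨h, h'⟩ hp⟩
  choose g S hgS using h1
  obtain ⟨S0, hS0, hZS⟩ := hZ k σ ι f a ha c hc T hA (fun p => C c * ∏ i, g p i ^ a i) S
    (fun p hp hex => ⟨(hgS p hp hex).2.2.1, fun q hq => ((hgS p hp hex).2.2.2.1 q hq).1,
      (hgS p hp hex).2.2.2.2⟩)
  refine ⟨S0, fun q hq => ⟨(hS0 q hq).1, ?_⟩, hZS⟩
  -- extension of the constants
  have hcC : algebraMap k ℂ c ≠ 0 := fun h => hc (hinj (h.trans (map_zero _).symm))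
  have hmap : ∀ h : ι → MvPolynomial σ k, MvPolynomial.map (algebraMap k ℂ) (C c * ∏ i, h i ^ a i)
      = C (algebraMap k ℂ c) * ∏ i, MvPolynomial.map (algebraMap k ℂ) (h i) ^ a i := by
    intro h
    rw [map_mul, MvPolynomial.map_C, map_prod]
    simp only [map_pow]
  have hfC : ∀ i, ∀ d : ℂ, MvPolynomial.map (algebraMap k ℂ) (f i) ≠ C d := by
    intro i d hd
    apply hf i (coeff 0 (f i))
    ext α
    rw [coeff_C]
    split_ifs with h2
    · rw [← h2]
    · have h3 := congrArg (coeff α) hd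
      rw [coeff_map, coeff_C, if_neg h2] at h3
      exact hinj (h3.trans (map_zero _).symm)
  obtain ⟨T', hT'⟩ : ∃ T' : Finset (σ → ℂ), T' = T.image fun p l => algebraMap k ℂ (p l) :=
    ⟨_, rfl⟩
  have hT1 : ∀ p ∈ T, (fun l => algebraMap k ℂ (p l)) ∈ T' := fun p hp =>
    hT' ▸ Finset.mem_image_of_mem _ hp
  have hT2 : ∀ z ∈ T', ∃ p ∈ T, z = fun l => algebraMap k ℂ (p l) := by
    intro z hz
    rw [hT', Finset.mem_image] at hz
    obtain ⟨p, hp, h⟩ := hz
    exact ⟨p, hp, h.symm⟩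
  have hAC := sncOut_map hT1 hT2 hA
  rcases (hS0 q hq).2 with ⟨i, hi⟩ | ⟨p, hp, hex, hqS⟩
  · -- the components
    have h2 := hMr σ ι hn (fun i => MvPolynomial.map (algebraMap k ℂ) (f i)) a ha
      (algebraMap k ℂ c) hcC hfC (T' : Set (σ → ℂ)) T'.finite_toSet (fun z hz => by
        have h3 := hAC z fun p hp hzp => hz (by rw [hzp]; exact hp)
        simp only [map_self] at h3
        exact h3) i
    rw [hmap]
    have h3 : ((q.1 : ℂ) / (q.2 : ℂ)) = -(1 / (a i : ℂ)) := by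
      have h4 := congrArg (fun x : ℚ => (x : ℂ)) hi
      simp only [Rat.cast_div, Rat.cast_intCast, Rat.cast_natCast, Rat.cast_neg,
        Rat.cast_one] at h4
      exact h4
    rw [h3]
    exact h2
  · -- the points
    obtain ⟨hg1, hg2, hg3, hg4, -⟩ := hgS p hp hex
    have h2 := hg4 q hqS
    rw [hmap] at h2 ⊢
    refine hR σ ι (fun i => MvPolynomial.map (algebraMap k ℂ) (f i))
      (fun i => MvPolynomial.map (algebraMap k ℂ) (g p i)) a ha (algebraMap k ℂ c) hcC hn hfC T'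
      (fun l => algebraMap k ℂ (p l)) hAC ?_ ?_ ?_ _ h2.2
    · refine sncOut_map (T := {0}) ?_ ?_ hg1
      · intro z hz
        rw [Finset.mem_singleton] at hz ⊢
        rw [hz]
        funext l
        exact map_zero _
      · intro z hz
        rw [Finset.mem_singleton] at hz
        refine ⟨0, Finset.mem_singleton_self _, ?_⟩
        rw [hz]
        funext l
        exact (map_zero _).symm
    · intro i hi
      rw [eval_map_pt] at hi ⊢
      have h4 : eval p (f i) ≠ 0 := fun h => hi (by rw [h, map_zero])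
      rw [hg2 i h4, MvPolynomial.map_C]
    · have h5 := hAp k σ _ _ p hg3
      rw [hmap, hmap] at h5
      exact h5

end Pool.Agent.ISO.H91
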