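import Pool.Agent.Helper91_ISO.Init

/-!
# Squad ISO, block A: the model at a nondegenerate point
-/

set_option autoImplicit false
set_option linter.unusedVariables false

namespace Pool.Agent.ISO.H91

open MvPolynomial Pool.Agent.Helper6_Mono Pool.Agent.Helper32_OMP Pool.Agent.Helper30_Simp
  Pool.Agent.Helper91_NDR

theorem mod (hD : DetStmt) (hB : BmdStmt) : ModStmt := by
  intro k _ _ σ ι _ _ f a ha c hc T p hA hN hex
  classical
  obtain ⟨φ, hφ0, hφ1, hφ⟩ := hN
  -- the vanishing members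
  obtain ⟨r, ⟨e⟩⟩ : ∃ r : ℕ, Nonempty (Fin r ≃ {i // eval p (f i) = 0}) :=
    ⟨_, ⟨(Fintype.equivFin _).symm⟩⟩
  obtain ⟨i0, hi0⟩ := hex
  have hr : 0 < r := by
    have h1 := (e.symm ⟨i0, hi0⟩).2
    omega
  have hne : Nonempty σ := by
    by_contra h
    rw [not_nonempty_iff] at h
    obtain ⟨P, hP, -⟩ := hφ (fun _ => 1) (fun _ => one_pos)
    obtain ⟨h1, N, h2⟩ := hP i0 hi0
    have h3 : f i0 = 0 := by
      rw [MvPolynomial.eq_C_of_isEmpty (f i0)] at hi0 ⊢
      rw [eval_C] at hi0
      rw [hi0, C_0]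
    apply h1
    ext α
    rw [(h2 α).2, h3, map_zero, map_zero, ite_self, coeff_zero]
  have hinj : Function.Injective (fun j : Fin r => (e j).1) :=
    Subtype.val_injective.comp e.injective
  obtain ⟨D, hD1, hDet⟩ := hD k σ (Fin r) (fun j => f (e j).1) T p (sncOut_comp hA _ hinj)
    (fun j => (e j).2)
  obtain ⟨E0, hE0⟩ : ∃ E0, E0 = max D 2 := ⟨_, rfl⟩
  have hE1 : D ≤ E0 := hE0 ▸ le_max_left _ _
  have hE2 : 2 ≤ E0 := hE0 ▸ le_max_right _ _
  obtain ⟨P, hP⟩ : ∃ P : Fin r → MvPolynomial σ k,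
      P = fun j => MvPowerSeries.truncTotal E0 (aeval φ (f (e j).1)) := ⟨_, rfl⟩
  obtain ⟨g', hg1, hg2, hg3, hg4⟩ := hB k σ r hr (fun j => a (e j).1) (fun j => ha _) P E0
    (by omega) (fun i α hα => by
      by_contra h
      rw [mem_support_iff, hP] at hα
      exact hα (MvPowerSeries.coeff_truncTotal_eq_zero _ (by omega))) (by
    intro w hw J hJ hJD
    obtain ⟨w', rfl⟩ : ∃ w' : σ → ℕ, w = fun l => (w' l : ℤ) :=
      ⟨fun l => (w l).toNat, funext fun l => (Int.toNat_of_nonneg (hw l).le).symm⟩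
    have hw' : ∀ l, 0 < w' l := fun l =>
      Int.natCast_pos.1 (show (0 : ℤ) < (w' l : ℤ) from hw l)
    obtain ⟨Q, hQ, hsnc⟩ := hφ w' hw'
    have h1 : ∀ i ∈ J, initForm (fun l => (w' l : ℤ)) (P i) = Q (e i).1 := by
      intro i hi
      rw [hP]
      refine initForm_trunc hw' (hQ _ (e i).2) ?_
      have h2 := hJD i hi
      rw [hP] at h2
      exact h2
    have h2 : cay (fun i => initForm (fun l => (w' l : ℤ)) (P i)) J
        = cay (fun i => Q (e i).1) J := by
      unfold cay
      refine Finset.sum_congr rfl fun i hi => ?_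
      show X (Sum.inr i) * rename Sum.inl (initForm (fun l => (w' l : ℤ)) (P i)) = _
      rw [h1 i hi]
    rw [h2]
    refine cay_smooth _ J hJ fun z hz => ?_
    exact snc_comp (hsnc z hz) (fun i : J => e i.1)
      (e.injective.comp Subtype.val_injective))
  obtain ⟨g, hg⟩ : ∃ g : ι → MvPolynomial σ k, (∀ i (h : eval p (f i) = 0),
      g i = g' (e.symm ⟨i, h⟩)) ∧ ∀ i, eval p (f i) ≠ 0 → g i = C (eval p (f i)) :=
    ⟨fun i => if h : eval p (f i) = 0 then g' (e.symm ⟨i, h⟩) else C (eval p (f i)),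
      fun i h => dif_pos h, fun i h => dif_neg h⟩
  refine ⟨g, ?_, hg.2, ?_, ?_⟩
  · -- normal crossings
    intro z hz
    have h1 := hg3 z hz
    have hv : ∀ i : {i // eval z (MvPolynomial.map (algebraMap k ℂ) (g i)) = 0},
        eval p (f i.1) = 0 := by
      intro i
      by_contra h
      have h2 := i.2
      rw [hg.2 _ h, map_C, eval_C] at h2
      exact h ((algebraMap k ℂ).injective (h2.trans (map_zero _).symm))
    obtain ⟨m, hm⟩ : ∃ m : {i // eval z (MvPolynomial.map (algebraMap k ℂ) (g i)) = 0} →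
        {j // eval z (MvPolynomial.map (algebraMap k ℂ) (g' j)) = 0},
        ∀ i, (m i).1 = e.symm ⟨i.1, hv i⟩ :=
      ⟨fun i => ⟨e.symm ⟨i.1, hv i⟩, by rw [← hg.1 i.1 (hv i)]; exact i.2⟩, fun i => rfl⟩
    have hmi : Function.Injective m := by
      intro i j hij
      have h2 := congrArg Subtype.val hij
      rw [hm, hm] at h2
      have h3 := congrArg Subtype.val (e.symm.injective h2)
      exact Subtype.ext h3
    have h2 := LinearIndependent.comp (ι := {j // eval z (MvPolynomial.map (algebraMap k ℂ)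
      (g' j)) = 0}) (v := fun j => fun l : σ => eval z (pderiv l
        (MvPolynomial.map (algebraMap k ℂ) (g' j)))) h1 m hmi
    have h3 : (fun i : {i // eval z (MvPolynomial.map (algebraMap k ℂ) (g i)) = 0} =>
        fun l : σ => eval z (pderiv l (MvPolynomial.map (algebraMap k ℂ) (g i)))) =
        (fun j : {j // eval z (MvPolynomial.map (algebraMap k ℂ) (g' j)) = 0} =>
          fun l : σ => eval z (pderiv l (MvPolynomial.map (algebraMap k ℂ) (g' j)))) ∘ m := by
      funext i l
      show _ = eval z (pderiv l (MvPolynomial.map (algebraMap k ℂ) (g' (m i).1)))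
      rw [hm, ← hg.1 i.1 (hv i)]
    unfold SncAt
    rw [← h3] at h2
    exact h2
  · -- the germs
    rw [apx_iff]
    intro E
    have hcrd : Crd p (fun l => MvPowerSeries.truncTotal E0 (φ l)) := crd_trunc hφ0 hφ1 hE2
    obtain ⟨ψ, u, hψ, hu0, hu⟩ := hDet _ g' hcrd (fun j => by
      have h1 := Eqm.mono hE1 (aeval_trunc E0 φ (f (e j).1))
      have h2 := Eqm.mono hE1 (hg1 j)
      rw [eqm_iff] at h1 h2 ⊢
      rw [h1, ← h2, hP]) E
    have hU : ∀ i, ∃ U : MvPolynomial σ k, constantCoeff U = 1 ∧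
        Eqm E (U * aeval ψ (f i)) (g i) := by
      intro i
      by_cases h : eval p (f i) = 0
      · refine ⟨u (e.symm ⟨i, h⟩), hu0 _, ?_⟩
        have h1 := hu (e.symm ⟨i, h⟩)
        simp only [Equiv.apply_symm_apply] at h1
        rw [hg.1 i h]
        exact h1
      · have hcc := constantCoeff_aeval ψ p hψ.1 (f i)
        obtain ⟨y, hy0, hy⟩ := exists_inv E (aeval ψ (f i)) (by rw [hcc]; exact h)
        refine ⟨C (eval p (f i)) * y, ?_, ?_⟩
        · rw [map_mul, constantCoeff_C, hy0, hcc, mul_inv_cancel₀ h]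
        · rw [hg.2 i h, eqm_iff]
          have h1 : qm k σ E (aeval ψ (f i) * y) = 1 := by
            rw [← map_one (qm k σ E), Ideal.Quotient.eq]
            exact hy
          rw [show C (eval p (f i)) * y * aeval ψ (f i) = C (eval p (f i)) * (aeval ψ (f i) * y)
            by ring, map_mul, h1, mul_one]
    choose U hU0 hU1 using hU
    refine ⟨ψ, ∏ i, U i ^ a i, hψ, ?_, ?_⟩
    · rw [map_prod]
      exact Finset.prod_eq_one fun i _ => by rw [map_pow, hU0, one_pow]
    · have hAl : aeval ψ (C c * ∏ i, f i ^ a i) = C c * ∏ i, aeval ψ (f i) ^ a i := by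
        rw [map_mul, algHom_C, map_prod, MvPolynomial.algebraMap_eq]
        simp only [map_pow]
      rw [eqm_iff, hAl]
      simp only [map_mul, map_prod, map_pow]
      have h1 : ∀ i, qm k σ E (g i) = qm k σ E (U i) * qm k σ E (aeval ψ (f i)) := by
        intro i
        rw [← map_mul]
        exact (eqm_iff.1 (hU1 i)).symm
      simp only [h1, mul_pow, Finset.prod_mul_distrib]
      ring
  · -- the conjecture
    obtain ⟨c', hc'⟩ : ∃ c' : k, c' = c * ∏ i : {i // ¬ eval p (f i) = 0},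
        (eval p (f i.1)) ^ a i.1 := ⟨_, rfl⟩
    have hc0 : c' ≠ 0 := by
      rw [hc']
      exact mul_ne_zero hc (Finset.prod_ne_zero_iff.2 fun i _ => pow_ne_zero _ i.2)
    have h1 : C c * ∏ i, g i ^ a i = C c' * ∏ j, g' j ^ a (e j).1 := by
      rw [← Fintype.prod_subtype_mul_prod_subtype (fun i => eval p (f i) = 0)
        (fun i => g i ^ a i)]
      have h2 : ∏ i : {i // eval p (f i) = 0}, g i.1 ^ a i.1 = ∏ j, g' j ^ a (e j).1 := by
        rw [← Equiv.prod_comp e]
        refine Finset.prod_congr rfl fun j _ => ?_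
        rw [hg.1 _ (e j).2]
        congr 2
        exact e.symm_apply_apply j
      have h3 : ∏ i : {i // ¬ eval p (f i) = 0}, g i.1 ^ a i.1 =
          C (∏ i : {i // ¬ eval p (f i) = 0}, (eval p (f i.1)) ^ a i.1) := by
        rw [map_prod]
        refine Finset.prod_congr rfl fun i _ => ?_
        rw [hg.2 _ i.2, map_pow]
      rw [h2, h3, hc', C_mul]
      ring
    rw [h1]
    exact hg4 c' hc0

end Pool.Agent.ISO.H91
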