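import Pool.Agent.Helper22_ISO.DetAll
import Pool.Agent.Helper58_ISO.BMD
import Pool.Agent.Helper8_ISO.RooAll
import Pool.Agent.Helper1_ISO.MVI
import Pool.Agent.Helper64_ISO.MVZ
import Pool.Agent.Helper89_ISO.MVU
import Pool.Agent.Helper13_ISO.MVL
import Pool.Agent.Helper39_ISO.MVP
import Pool.Agent.Helper36_ISO.MVE
import Pool.Agent.Helper60_ISO.RHO
import Pool.Agent.Helper30_ISO.ZRM
import Pool.Agent.Helper30_ISO.ZPB
import Pool.Agent.Helper95_ISO.PAP
import Pool.Agent.Helper81_ISO.OUM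
import Pool.Agent.Helper52_ISO.ZCG
import Pool.Agent.Helper2_ISO.ZPT
import Pool.Agent.Helper50_ISO.ZLO
import Pool.Agent.Helper42_ISO.ZAS
import Pool.Agent.Helper8_ISO.ZED
import Pool.Agent.Helper91_ISO.Mod
import Pool.Agent.Helper91_ISO.Final
import Pool.Agent.Helper32_OMP.Assembly
import Pool.Agent.Helper56_ISO.Fin

/-!
# Squad ISO: Theorem U, all rows filled in
-/

set_option autoImplicit false

namespace Pool.Agent.ISO.H91

open Pool.Agent.Helper32_OMP

theorem rhoAll : RhoStmt := H60.rho H1.mvi H64.mvz H89.mvu H13.mvl H39.mvp H36.mve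

theorem oumAll : OumStmt := H81.oum rhoAll H30.zrm H95.pap

theorem zedAll : ZedStmt :=
  Z.H8.zed oumAll (Z.H50.zlo (Z.H2.zpt Z.H52.zcg Z.H30.zpb)) Z.H42.zas

theorem modAll : ModStmt := mod H22.detAll H58.bmd

/-- **Theorem U.** -/
theorem thmU : H56.ThmU := by
  intro k _ _ σ ι _ _ hn f hf a ha c hc T hA hN
  exact final modAll R.H8.rooAll zedAll R.H8.apmAll mrootStmt hn f hf a ha c hc T hA hN

end Pool.Agent.ISO.H91
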