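import Pool.Agent.ISO.Defs

/-!
# Squad ISO: basic facts (congruences modulo terms of high degree, truncation, subfamilies)
-/

set_option autoImplicit false
set_option linter.unusedVariables false

namespace Pool.Agent.ISO.H91

open MvPolynomial Pool.Agent.Helper6_Mono Pool.Agent.Helper32_OMP

section cong

variable {k σ : Type} [Field k]

/-- the reduction modulo terms of degree `≥ E` -/
noncomputable abbrev qm (k σ : Type) [Field k] (E : ℕ) :
    MvPolynomial σ k →+* MvPolynomial σ k ⧸ Mx k σ E := Ideal.Quotient.mk (Mx k σ E)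

theorem eqm_iff {E : ℕ} {P Q : MvPolynomial σ k} : Eqm E P Q ↔ qm k σ E P = qm k σ E Q := by
  rw [eqm_iff_mx, Ideal.Quotient.eq]

theorem Eqm.mono {E E' : ℕ} (h : E ≤ E') {P Q : MvPolynomial σ k} (hPQ : Eqm E' P Q) :
    Eqm E P Q := fun b hb => hPQ b (lt_of_lt_of_le hb h)

theorem Mx_anti {E E' : ℕ} (h : E ≤ E') : Mx k σ E' ≤ Mx k σ E := by
  intro x hx
  rw [mem_Mx] at hx ⊢
  exact fun b hb => hx b (lt_of_lt_of_le hb h)

theorem mul_mem_Mx {a b : ℕ} {x y : MvPolynomial σ k} (hx : x ∈ Mx k σ a) (hy : y ∈ Mx k σ b) :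
    x * y ∈ Mx k σ (a + b) := by
  classical
  rw [mem_Mx] at *
  intro β hβ
  rw [coeff_mul]
  refine Finset.sum_eq_zero fun q hq => ?_
  have h1 : q.1 + q.2 = β := Finset.HasAntidiagonal.mem_antidiagonal.1 hq
  have h2 : q.1.degree + q.2.degree = β.degree := by rw [← h1, map_add]
  rcases Nat.lt_or_ge q.1.degree a with h | h
  · rw [hx _ h, zero_mul]
  · rw [hy _ (by omega), mul_zero]

theorem pow_mem_Mx {x : MvPolynomial σ k} (hx : x ∈ Mx k σ 1) (n : ℕ) : x ^ n ∈ Mx k σ n := by
  induction n with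
  | zero =>
    rw [mem_Mx]
    intro b hb
    exact absurd hb (Nat.not_lt_zero _)
  | succ n ih =>
    rw [pow_succ]
    exact mul_mem_Mx ih hx

theorem mem_Mx_one {x : MvPolynomial σ k} : x ∈ Mx k σ 1 ↔ constantCoeff x = 0 := by
  rw [mem_Mx]
  constructor
  · intro h
    exact h 0 (by simp)
  · intro h b hb
    have h1 : b.degree = 0 := by omega
    rw [Finsupp.degree_eq_zero_iff] at h1
    rw [h1]
    exact h

/-- polynomials with nonzero constant term are invertible modulo terms of high degree -/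
theorem exists_inv (E : ℕ) (x : MvPolynomial σ k) (hx : constantCoeff x ≠ 0) :
    ∃ y : MvPolynomial σ k, constantCoeff y = (constantCoeff x)⁻¹ ∧ x * y - 1 ∈ Mx k σ E := by
  obtain ⟨d, hd⟩ : ∃ d, d = constantCoeff x := ⟨_, rfl⟩
  obtain ⟨n, hn⟩ : ∃ n, n = 1 - C d⁻¹ * x := ⟨_, rfl⟩
  have hn0 : constantCoeff n = 0 := by
    rw [hn, map_sub, map_mul, map_one, constantCoeff_C, ← hd, inv_mul_cancel₀ (hd ▸ hx), sub_self]
  have hx1 : x = C d * (1 - n) := by
    rw [hn, sub_sub_cancel, ← mul_assoc, ← C_mul, mul_inv_cancel₀ (hd ▸ hx), C_1, one_mul]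
  refine ⟨C d⁻¹ * ∑ j ∈ Finset.range (E + 1), n ^ j, ?_, ?_⟩
  · rw [map_mul, constantCoeff_C, map_sum, Finset.sum_range_succ', hd]
    simp [hn0]
  · have h1 : x * (C d⁻¹ * ∑ j ∈ Finset.range (E + 1), n ^ j) - 1 = - n ^ (E + 1) := by
      have h2 := mul_neg_geom_sum n (E + 1)
      calc x * (C d⁻¹ * ∑ j ∈ Finset.range (E + 1), n ^ j) - 1
          = (C d * C d⁻¹) * ((1 - n) * ∑ j ∈ Finset.range (E + 1), n ^ j) - 1 := by
            rw [hx1]; ring
        _ = - n ^ (E + 1) := by
            rw [h2, ← C_mul, mul_inv_cancel₀ (hd ▸ hx), C_1]; ring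
    rw [h1]
    exact neg_mem (Mx_anti (Nat.le_succ E) (pow_mem_Mx (mem_Mx_one.2 hn0) _))

theorem constantCoeff_aeval (ψ : σ → MvPolynomial σ k) (p : σ → k)
    (hψ : ∀ l, constantCoeff (ψ l) = p l) (f : MvPolynomial σ k) :
    constantCoeff (aeval ψ f) = eval p f := by
  have h : ((constantCoeff : MvPolynomial σ k →+* k).comp
      ((aeval ψ : MvPolynomial σ k →ₐ[k] MvPolynomial σ k) : MvPolynomial σ k →+* _))
      = eval p := by
    apply MvPolynomial.ringHom_ext
    · intro a
      simp [MvPolynomial.algebraMap_eq]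
    · intro i
      simp [hψ]
  exact RingHom.congr_fun h f

end cong

/-! ## Power series -/

section ps

variable {k σ : Type} [Field k] [Finite σ]

theorem aeval_trunc (E : ℕ) (φ : σ → MvPowerSeries σ k) (f : MvPolynomial σ k) :
    Eqm E (aeval (fun l => MvPowerSeries.truncTotal E (φ l)) f)
      (MvPowerSeries.truncTotal E (aeval φ f)) := by
  obtain ⟨Q, hQ⟩ : ∃ Q, Q = Ideal.Quotient.mk (JO k σ E) := ⟨_, rfl⟩
  have h : ((Q.comp (coeToMvPowerSeries.ringHom : MvPolynomial σ k →+* MvPowerSeries σ k)).comp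
      ((aeval (fun l => MvPowerSeries.truncTotal E (φ l)) : MvPolynomial σ k →ₐ[k] _) :
        MvPolynomial σ k →+* MvPolynomial σ k))
      = Q.comp ((aeval φ : MvPolynomial σ k →ₐ[k] MvPowerSeries σ k) :
        MvPolynomial σ k →+* MvPowerSeries σ k) := by
    apply MvPolynomial.ringHom_ext
    · intro a
      simp only [RingHom.comp_apply, RingHom.coe_coe, algHom_C, coeToMvPowerSeries.ringHom_apply]
      congr 1
      rw [MvPolynomial.algebraMap_eq, MvPolynomial.coe_C]
      rfl
    · intro i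
      simp only [RingHom.comp_apply, RingHom.coe_coe, aeval_X, coeToMvPowerSeries.ringHom_apply]
      rw [hQ, Ideal.Quotient.eq, mem_JO]
      intro β hβ
      rw [map_sub, MvPolynomial.coeff_coe, MvPowerSeries.coeff_truncTotal _ hβ, sub_self]
  have h1 := RingHom.congr_fun h f
  simp only [RingHom.comp_apply, RingHom.coe_coe, coeToMvPowerSeries.ringHom_apply] at h1
  rw [hQ, Ideal.Quotient.eq, mem_JO] at h1
  intro b hb
  have h2 := h1 b hb
  rw [map_sub, MvPolynomial.coeff_coe, sub_eq_zero] at h2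
  rw [h2, MvPowerSeries.coeff_truncTotal _ hb]

/-- the truncated coordinates -/
theorem crd_trunc {p : σ → k} {φ : σ → MvPowerSeries σ k}
    (h0 : ∀ l, MvPowerSeries.constantCoeff (φ l) = p l)
    (h1 : LinearIndependent k (fun l j : σ => MvPowerSeries.coeff (Finsupp.single j 1) (φ l)))
    {E : ℕ} (hE : 2 ≤ E) : Crd p (fun l => MvPowerSeries.truncTotal E (φ l)) := by
  refine ⟨fun l => ?_, ?_⟩
  · rw [MvPowerSeries.constantCoeff_truncTotal_eq_ite, if_pos (by omega), h0]
  · have h2 : (fun l j : σ => coeff (Finsupp.single j 1) (MvPowerSeries.truncTotal E (φ l)))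
        = fun l j : σ => MvPowerSeries.coeff (Finsupp.single j 1) (φ l) := by
      funext l j
      rw [MvPowerSeries.coeff_truncTotal]
      rw [Finsupp.degree_single]
      omega
    rw [h2]
    exact h1

end ps

/-! ## Families -/

/-- reindexing of the vanishing members -/
def subI {σ ι κ : Type} (g : ι → MvPolynomial σ ℂ) (z : σ → ℂ) (e : κ → ι)
    (i : {j // eval z (g (e j)) = 0}) : {i // eval z (g i) = 0} := ⟨e i.1, i.2⟩

theorem subI_inj {σ ι κ : Type} (g : ι → MvPolynomial σ ℂ) (z : σ → ℂ) (e : κ → ι)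
    (he : Function.Injective e) : Function.Injective (subI g z e) := by
  intro a b hab
  exact Subtype.ext (he (congrArg Subtype.val hab))

theorem snc_comp {σ ι κ : Type} {g : ι → MvPolynomial σ ℂ} {z : σ → ℂ} (h : SncAt g z)
    (e : κ → ι) (he : Function.Injective e) : SncAt (fun j => g (e j)) z :=
  LinearIndependent.comp (ι := {i // eval z (g i) = 0})
    (v := fun i => fun l : σ => eval z (pderiv l (g i))) h (subI g z e) (subI_inj g z e he)

theorem sncOut_comp {k σ ι κ : Type} [Field k] [Algebra k ℂ] {f : ι → MvPolynomial σ k}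
    {T : Finset (σ → k)} (h : SncOut f T) (e : κ → ι) (he : Function.Injective e) :
    SncOut (fun j => f (e j)) T := fun z hz => snc_comp (h z hz) e he

end Pool.Agent.ISO.H91
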