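import Pool.Agent.Helper91_ISO.Basic
import Pool.Agent.Helper48_OMP.Nsatz
set_option autoImplicit false
set_option linter.unusedVariables false
set_option linter.unusedSectionVars false
namespace Pool.Agent.ISO.H91
open MvPolynomial Pool.Agent.Helper6_Mono Pool.Agent.Helper32_OMP Pool.Agent.Helper30_Simp
  Pool.Agent.Helper91_NDR

section cayley

variable {k : Type} [Field k] [Algebra k ℂ] {σ ι : Type} [Fintype σ] [Fintype ι]

theorem aeval_rename_inl (z : σ ⊕ ι → ℂ) (g : MvPolynomial σ k) :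
    aeval z (rename Sum.inl g) = eval (fun l => z (Sum.inl l)) (MvPolynomial.map (algebraMap k ℂ) g) := by
  rw [aeval_rename, eval_map]
  rfl

theorem pderiv_rename_inl (l : σ) (g : MvPolynomial σ k) :
    pderiv (Sum.inl l : σ ⊕ ι) (rename Sum.inl g) = rename Sum.inl (pderiv l g) := by
  classical
  exact pderiv_rename Sum.inl_injective l g

theorem pderiv_rename_inr (i : ι) (g : MvPolynomial σ k) :
    pderiv (Sum.inr i : σ ⊕ ι) (rename Sum.inl g) = 0 := by
  classical
  induction g using MvPolynomial.induction_on with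
  | C a => rw [rename_C, pderiv_C]
  | add p q hp hq => rw [map_add, map_add, hp, hq, add_zero]
  | mul_X p j hp =>
    rw [map_mul, rename_X, Derivation.leibniz, hp, pderiv_X_of_ne (by simp), smul_zero, smul_zero,
      add_zero]

theorem torusSmooth_of {τ : Type} [Fintype τ] (g : MvPolynomial τ k)
    (h : ∀ z : τ → ℂ, (∀ i, z i ≠ 0) → aeval z g = 0 → (∀ i, aeval z (pderiv i g) = 0) → False) :
    TorusSmooth g := by
  obtain ⟨N, hN⟩ := H48.nul k τ ({g} ∪ Set.range fun j => pderiv j g) (∏ i, X i) (by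
    intro z hz
    by_contra hne
    refine h z (fun i hi => ?_) (hz g (Or.inl rfl)) (fun i => hz _ (Or.inr ⟨i, rfl⟩))
    apply hne
    rw [map_prod]
    exact Finset.prod_eq_zero (Finset.mem_univ i) (by rw [aeval_X, hi]))
  exact ⟨N, hN⟩

theorem cay_smooth (P : ι → MvPolynomial σ k) (J : Finset ι) (hJ : J.Nonempty)
    (h : ∀ z : σ → ℂ, (∀ l, z l ≠ 0) →
      SncAt (fun i : J => MvPolynomial.map (algebraMap k ℂ) (P i)) z) : TorusSmooth (cay P J) := by
  classical
  refine torusSmooth_of _ fun z hz h0 hd => ?_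
  have hs := h (fun l => z (Sum.inl l)) (fun l => hz _)
  -- all members vanish
  have h1 : ∀ i ∈ J, eval (fun l => z (Sum.inl l)) (MvPolynomial.map (algebraMap k ℂ) (P i)) = 0 := by
    intro i hi
    have h2 := hd (Sum.inr i)
    unfold cay at h2
    rw [map_sum, Finset.sum_eq_single_of_mem i hi, Derivation.leibniz, pderiv_rename_inr,
      pderiv_X_self, smul_zero, zero_add, smul_eq_mul, mul_one, aeval_rename_inl] at h2
    · exact h2
    · intro j hj hji
      rw [Derivation.leibniz, pderiv_rename_inr, pderiv_X_of_ne (by simpa using hji), smul_zero,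
        smul_zero, add_zero]
  have h3 : ∀ l : σ, ∑ i ∈ J, z (Sum.inr i) * eval (fun l => z (Sum.inl l))
      (pderiv l (MvPolynomial.map (algebraMap k ℂ) (P i))) = 0 := by
    intro l
    have h2 := hd (Sum.inl l)
    unfold cay at h2
    rw [map_sum, map_sum] at h2
    rw [← h2]
    refine Finset.sum_congr rfl fun i hi => ?_
    rw [Derivation.leibniz, pderiv_rename_inl, pderiv_X_of_ne (by simp), smul_zero, add_zero,
      smul_eq_mul, map_mul, aeval_X, aeval_rename_inl, pderiv_map]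
  obtain ⟨i0, hi0⟩ := hJ
  unfold SncAt at hs
  rw [Fintype.linearIndependent_iff] at hs
  have h5 : ∑ i : {i : J // eval (fun l => z (Sum.inl l))
      (MvPolynomial.map (algebraMap k ℂ) (P i)) = 0},
      z (Sum.inr i.1.1) • (fun l : σ => eval (fun l => z (Sum.inl l))
        (pderiv l (MvPolynomial.map (algebraMap k ℂ) (P i.1)))) = 0 := by
    funext l
    rw [Finset.sum_apply]
    refine Eq.trans ?_ (h3 l)
    rw [← Finset.sum_coe_sort J]
    exact Fintype.sum_equiv (Equiv.subtypeUnivEquiv (fun i : J => h1 i i.2)) _ _ (fun i => rfl)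
  exact hz _ (hs (fun i => z (Sum.inr i.1.1)) h5 ⟨⟨i0, hi0⟩, h1 i0 hi0⟩)

end cayley

section init

variable {k : Type} [Field k] {σ : Type} [Fintype σ]

theorem coeff_initForm (w : σ → ℤ) (f : MvPolynomial σ k) (β : σ →₀ ℕ) :
    (β ∈ f.support ∧ (∀ γ ∈ f.support, wgt w β ≤ wgt w γ) → coeff β (initForm w f) = coeff β f) ∧
    (¬ (β ∈ f.support ∧ (∀ γ ∈ f.support, wgt w β ≤ wgt w γ)) → coeff β (initForm w f) = 0) := by
  classical
  have h : coeff β (initForm w f) = if β ∈ f.support ∧ (∀ γ ∈ f.support, wgt w β ≤ wgt w γ) then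
      coeff β f else 0 := by
    unfold initForm
    rw [coeff_sum, Finset.sum_congr rfl fun α _ => coeff_monomial β α (coeff α f),
      Finset.sum_ite_eq']
    simp only [Finset.mem_filter]
  exact ⟨fun h1 => by rw [h, if_pos h1], fun h1 => by rw [h, if_neg h1]⟩

/-- the initial form of the truncation -/
theorem initForm_trunc [Nonempty σ] {w : σ → ℕ} (hw : ∀ l, 0 < w l) {g : MvPowerSeries σ k}
    {P : MvPolynomial σ k} (hP : IsInit w g P) {D : ℕ}
    (hD : ∃ α ∈ (MvPowerSeries.truncTotal D g).support, ∀ l, wgt (fun l => (w l : ℤ)) α <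
      (D : ℤ) * (w l : ℤ)) :
    initForm (fun l => (w l : ℤ)) (MvPowerSeries.truncTotal D g) = P := by
  classical
  obtain ⟨hP0, N, hN⟩ := hP
  obtain ⟨α, hα, hαD⟩ := hD
  have hwg : ∀ β : σ →₀ ℕ, wgt (fun l => (w l : ℤ)) β = ((∑ l, w l * β l : ℕ) : ℤ) := by
    intro β
    unfold wgt
    push_cast
    rfl
  have hsup : ∀ β, β ∈ (MvPowerSeries.truncTotal D g).support ↔
      β.degree < D ∧ MvPowerSeries.coeff β g ≠ 0 := by
    intro β
    rw [mem_support_iff, MvPowerSeries.coeff_truncTotal_eq_ite]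
    split_ifs with h
    · exact ⟨fun h1 => ⟨h, h1⟩, fun h1 => h1.2⟩
    · exact ⟨fun h1 => absurd rfl h1, fun h1 => absurd h1.1 h⟩
  have hαN : N ≤ ∑ l, w l * α l := by
    by_contra h
    exact ((hsup α).1 hα).2 ((hN α).1 (by omega))
  have hlt : ∀ l, N < D * w l := by
    intro l
    have h1 := hαD l
    rw [hwg] at h1
    have h2 : ((∑ l, w l * α l : ℕ) : ℤ) < ((D * w l : ℕ) : ℤ) := by
      push_cast at h1 ⊢
      exact h1
    have h3 := Int.ofNat_lt.1 h2
    omega
  -- terms of weight `N` have degree less than `D`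
  have hdeg : ∀ β : σ →₀ ℕ, ∑ l, w l * β l = N → β.degree < D := by
    intro β hβ
    obtain ⟨l0, hl0⟩ := Finite.exists_min w
    have h1 : w l0 * β.degree ≤ ∑ l, w l * β l := by
      rw [Finsupp.degree_eq_sum, Finset.mul_sum]
      exact Finset.sum_le_sum fun l _ => Nat.mul_le_mul_right _ (hl0 l)
    have h2 := hlt l0
    rw [hβ] at h1
    by_contra h3
    have h4 : w l0 * D ≤ w l0 * β.degree := Nat.mul_le_mul_left _ (by omega)
    have h5 : D * w l0 = w l0 * D := Nat.mul_comm _ _
    omega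
  obtain ⟨α0, hα0⟩ : ∃ α0, coeff α0 P ≠ 0 := by
    by_contra h
    push Not at h
    exact hP0 (by ext β; rw [h β, coeff_zero])
  have hα0N : ∑ l, w l * α0 l = N := by
    by_contra h
    rw [(hN α0).2, if_neg h] at hα0
    exact hα0 rfl
  have hα0g : MvPowerSeries.coeff α0 g ≠ 0 := by
    rw [(hN α0).2, if_pos hα0N] at hα0
    exact hα0
  have hα0s : α0 ∈ (MvPowerSeries.truncTotal D g).support :=
    (hsup α0).2 ⟨hdeg α0 hα0N, hα0g⟩
  ext β
  by_cases hβ : ∑ l, w l * β l = N
  · rw [(hN β).2, if_pos hβ]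
    by_cases hβ0 : MvPowerSeries.coeff β g = 0
    · rw [hβ0]
      refine (coeff_initForm _ _ β).2 fun h => ?_
      exact ((hsup β).1 h.1).2 hβ0
    · rw [(coeff_initForm _ _ β).1, MvPowerSeries.coeff_truncTotal _ (hdeg β hβ)]
      refine ⟨(hsup β).2 ⟨hdeg β hβ, hβ0⟩, fun γ hγ => ?_⟩
      rw [hwg, hwg, hβ]
      have h1 : N ≤ ∑ l, w l * γ l := by
        by_contra h
        exact ((hsup γ).1 hγ).2 ((hN γ).1 (by omega))
      exact_mod_cast h1
  · rw [(hN β).2, if_neg hβ]
    refine (coeff_initForm _ _ β).2 fun h => ?_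
    have h1 := h.2 α0 hα0s
    rw [hwg, hwg, hα0N] at h1
    have h2 : ∑ l, w l * β l ≤ N := by exact_mod_cast h1
    exact ((hsup β).1 h.1).2 ((hN β).1 (by omega))

end init

end Pool.Agent.ISO.H91
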